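import Pool.Agent.Idx60.Main

/-!
MP_f95305_al, Q1: for every total order on `X = {a, a⁻¹, b, b⁻¹}`, the language of shortlex conjugacy
normal forms of the free group of rank two is not an indexed language (negative answer).
-/

namespace Pool.Agent.Results.MP_f95305_al.NotIndexed

open Pool.Agent.Idx60

/-- For every strict total order `lt` on the alphabet `X`, the language `conjNF lt` of shortlex
conjugacy normal forms of the free group of rank two is not generated by any indexed grammar. -/
theorem result (lt : X → X → Prop) (hlt : IsStrictTotalOrder X lt) : ¬ IsIndexed (conjNF lt) :=
  not_indexed lt hlt

end Pool.Agent.Results.MP_f95305_al.NotIndexed
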